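import Pool.Agent.Y986.QF.RR
import Pool.Agent.Y752.QF.Stm3

set_option autoImplicit false

/-! Project QF: hyperbolic region and product, `N^4 ≤ H`, all sign patterns. -/

namespace Pool.Agent.Y291.QF

open MeasureTheory Set Filter Complex
open Pool.Agent.TH612.GS (mP zN)
open Pool.Agent.TH612.CF (pw pw_apply pw_mult)
open Pool.Agent.TH521.GS (mor)
open Pool.Agent.Y752.QF
open Pool.Agent.Y986.QF (dbl lx_dbl XX2_eq EH EH_le)
open Pool.Agent.Y752.SR (TT mem_TT TT_pos XX XX_expand lx fx fx_pos fx_dvd dvd_fx prod_lx chs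
  chs_mul chs_one chs_prod sg tt_sum logp_le tls RR AA QQ PP SI cI AA_expand RR_insert RR_empty
  QQ_le RR_cont sum_inv_le)

noncomputable section

variable {k : ℕ}

/-- the vector of the signed doubled shifts -/
def ds (σ : Fin k → Bool) (γ : Fin k → ℝ) : Fin k ⊕ Fin k → ℝ := dbl (sv σ γ)

lemma ds_cont (σ : Fin k → Bool) : Continuous (ds σ : (Fin k → ℝ) → Fin k ⊕ Fin k → ℝ) := by
  refine continuous_pi fun i => ?_
  rcases i with j | j
  · change Continuous fun γ : Fin k → ℝ => if σ j then γ j else -γ j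
    cases σ j
    · simp only [Bool.false_eq_true, if_false]
      fun_prop
    · simp only [if_true]
      fun_prop
  · change Continuous fun γ : Fin k → ℝ => -(if σ j then γ j else -γ j)
    cases σ j
    · simp only [Bool.false_eq_true, if_false]
      fun_prop
    · simp only [if_true]
      fun_prop

lemma chs_sv (σ : Bool) (n : ℕ) (y : ℝ) : chs true n (if σ then y else -y) = chs σ n y := by
  unfold chs
  cases σ
  · simp
  · simp

lemma chs_neg (n : ℕ) (y : ℝ) : chs false n (-y) = chs true n y := by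
  unfold chs
  simp

lemma QQ_ds (N : ℕ) (γ : Fin k → ℝ) (e : Fin k × Fin k) :
    QQ N (dbl γ) e = zN N (1 + le γ e) := by
  unfold QQ zN
  refine Finset.sum_congr rfl fun n hn => ?_
  have hn1 := (Finset.mem_Icc.1 hn).1
  have hn0 : (n : ℂ) ≠ 0 := by exact_mod_cast (by omega : n ≠ 0)
  rw [pw_apply _ (by omega : n ≠ 0), lx_dbl, neg_add, Complex.cpow_add _ _ hn0,
    Complex.cpow_neg_one]

lemma RR_eq (W N : ℕ) (γ : Fin k → ℝ) : QQ2 N γ - PP2 W γ = RR (Ed k) W N (dbl γ) := by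
  unfold RR QQ2 PP2 PP
  congr 1
  · exact Finset.prod_congr rfl fun e _ => (QQ_ds N γ e).symm
  · refine Finset.sum_congr rfl fun m _ => ?_
    rw [XX2_eq, div_eq_inv_mul]

/-- the numbers at the vertices -/
def GG (a : Fin k × Fin k) (q : (Fin k × Fin k → ℕ) × ℕ) (j : Fin k) : ℕ :=
  (fx q.1 (Sum.inl j) * fx q.1 (Sum.inr j)) *
    ((if j = a.1 then q.2 else 1) * (if j = a.2 then q.2 else 1))

lemma AA_ds (σ : Fin k → Bool) (s : Finset (Fin k × Fin k)) (a : Fin k × Fin k) (W N : ℕ)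
    (γ : Fin k → ℝ) : AA s a W N (ds σ γ) =
      ∑ q ∈ SI s W N, cI q * ∏ j, chs (σ j) (GG a q j) (γ j) := by
  rw [AA_expand]
  refine Finset.sum_congr rfl fun q _ => ?_
  congr 1
  have h1 : ∏ i, chs (sg i) (fx q.1 i) (ds σ γ i) =
      ∏ j, chs (σ j) (fx q.1 (Sum.inl j) * fx q.1 (Sum.inr j)) (γ j) := by
    rw [Fintype.prod_sum_type, ← Finset.prod_mul_distrib]
    refine Finset.prod_congr rfl fun j _ => ?_
    rw [chs_mul]
    congr 1
    · change chs true (fx q.1 (Sum.inl j)) (if σ j then γ j else -γ j) = _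
      rw [chs_sv]
    · change chs false (fx q.1 (Sum.inr j)) (-(if σ j then γ j else -γ j)) = _
      rw [chs_neg, chs_sv]
  have h2 : chs (sg (Sum.inl a.1 : Fin k ⊕ Fin k)) q.2 (ds σ γ (Sum.inl a.1)) =
      ∏ j, chs (σ j) (if j = a.1 then q.2 else 1) (γ j) := by
    rw [Finset.prod_eq_single a.1]
    · rw [if_pos rfl]
      change chs true q.2 (if σ a.1 then γ a.1 else -γ a.1) = _
      rw [chs_sv]
    · intro j _ hj
      rw [if_neg hj, chs_one]
    · intro h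
      exact absurd (Finset.mem_univ _) h
  have h3 : chs false q.2 (ds σ γ (Sum.inr a.2)) =
      ∏ j, chs (σ j) (if j = a.2 then q.2 else 1) (γ j) := by
    rw [Finset.prod_eq_single a.2]
    · rw [if_pos rfl]
      change chs false q.2 (-(if σ a.2 then γ a.2 else -γ a.2)) = _
      rw [chs_neg, chs_sv]
    · intro j _ hj
      rw [if_neg hj, chs_one]
    · intro h
      exact absurd (Finset.mem_univ _) h
  rw [h1, h2, h3, ← Finset.prod_mul_distrib, ← Finset.prod_mul_distrib]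
  refine Finset.prod_congr rfl fun j _ => ?_
  unfold GG
  simp only [chs_mul]

theorem AA_ms3 {C1 : ℝ} (hC1 : 0 < C1) (hMV : ∀ (T : ℝ) (X : ℕ) (a : ℕ → ℂ), 1 ≤ T → (X : ℝ) ≤ T ^ 2 →
      ∫ u in (0:ℝ)..(2 * T), ‖∑ n ∈ Finset.Icc 1 X, a n * (n : ℂ) ^ (-(I * u))‖ ^ 2 ≤
        C1 * ∑ n ∈ Finset.Icc 1 X, (T + n) * ‖a n‖ ^ 2) (k : ℕ) {ε : ℝ} (hε : 0 < ε) :
    ∃ C : ℝ, 1 ≤ C ∧ ∀ (σ : Fin k → Bool) (s : Finset (Fin k × Fin k)) (a : Fin k × Fin k)
      (H : ℝ) (W N : ℕ), 1 ≤ W → W ≤ N → (N : ℝ) ^ 4 ≤ H →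
      ∫⁻ γ, ENNReal.ofReal (‖AA s a W N (ds σ γ)‖ ^ 2) ∂(mP (Fin k) H) ≤
        ENNReal.ofReal (C * H ^ k * H ^ ε / W) := by
  obtain ⟨C2, hC2, hE⟩ := EH_le (δ := ε / 2) (by positivity) (k * k + 1)
  obtain ⟨C3, hC3, hL⟩ := logp_le (δ := ε / 2) (by positivity) (k * k + 1)
  have hC20 : 0 < C2 := by linarith
  have hC30 : 0 < C3 := by linarith
  refine ⟨max 1 ((2 * C1) ^ k * C2 * C3), le_max_left _ _, ?_⟩
  intro σ s a H W N hW hWN hNH
  classical
  have hN1' : 1 ≤ N := hW.trans hWN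
  have hN1 : (1:ℝ) ≤ N := by exact_mod_cast hN1'
  have hW0 : (0:ℝ) < W := by exact_mod_cast hW
  have hNH' : (N : ℝ) ≤ H := by
    refine le_trans ?_ hNH
    have := pow_le_pow_right₀ hN1 (show 1 ≤ 4 by norm_num)
    simpa using this
  have hH : 1 ≤ H := hN1.trans hNH'
  have hH0 : 0 < H := by linarith
  have hlN : 0 ≤ Real.log N := Real.log_nonneg hN1
  have hmem : ∀ q ∈ SI s W N, q.1 ∈ TT s W ∧ (1 ≤ q.2 ∧ q.2 ≤ N) ∧ ∏ e, q.1 e ≤ W ∧
      W < (∏ e, q.1 e) * q.2 := by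
    intro q hq
    unfold SI at hq
    rw [Finset.mem_filter, Finset.mem_product, Finset.mem_Icc] at hq
    exact ⟨hq.1.1, hq.1.2, hq.2⟩
  have hpp : ∀ q ∈ SI s W N, 1 ≤ ∏ e, q.1 e := by
    intro q hq
    have : 0 < ∏ e, q.1 e := Finset.prod_pos fun e _ => Nat.lt_of_succ_le (TT_pos (hmem q hq).1 e)
    exact this
  have hfN : ∀ q ∈ SI s W N, ∀ i, fx q.1 i ≤ N := fun q hq i =>
    (Nat.le_of_dvd (hpp q hq) (fx_dvd q.1 i)).trans ((hmem q hq).2.2.1.trans hWN)
  have hG1 : ∀ q ∈ SI s W N, ∀ i, 1 ≤ GG a q i := by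
    intro q hq i
    unfold GG
    have h1 := fx_pos (TT_pos (hmem q hq).1) (Sum.inl i)
    have h2 := fx_pos (TT_pos (hmem q hq).1) (Sum.inr i)
    have h3 := (hmem q hq).2.1.1
    refine Nat.mul_pos (Nat.mul_pos h1 h2) (Nat.mul_pos ?_ ?_)
    · split_ifs <;> omega
    · split_ifs <;> omega
  have hG2 : ∀ q ∈ SI s W N, ∀ i, (GG a q i : ℝ) ≤ H := by
    intro q hq i
    have h3 := (hmem q hq).2.1.2
    have h4 : (if i = a.1 then q.2 else 1) ≤ N := by split_ifs <;> omega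
    have h5 : (if i = a.2 then q.2 else 1) ≤ N := by split_ifs <;> omega
    have h6 : GG a q i ≤ (N * N) * (N * N) := by
      unfold GG
      exact Nat.mul_le_mul (Nat.mul_le_mul (hfN q hq _) (hfN q hq _)) (Nat.mul_le_mul h4 h5)
    have h7 : (GG a q i : ℝ) ≤ (((N * N) * (N * N) : ℕ) : ℝ) := by exact_mod_cast h6
    refine h7.trans ?_
    push_cast
    calc (N : ℝ) * N * (N * N) = (N : ℝ) ^ 4 := by ring
      _ ≤ H := hNH
  have h1 := tls hC1 hMV hH k σ (SI s W N) (fun q => GG a q) cI (EH H ^ (k * k + 1))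
    (fun q hq i => ⟨hG1 q hq i, hG2 q hq i⟩)
    (fun q hq => by
      have h2 : ((SI s W N).filter fun q' => GG a q' = GG a q).card ≤
          ((Fintype.piFinset fun e : Fin k × Fin k => (GG a q e.1).divisors) ×ˢ
            (GG a q a.1).divisors).card := by
        refine Finset.card_le_card ?_
        intro q' hq'
        rw [Finset.mem_filter] at hq'
        rw [Finset.mem_product, Fintype.mem_piFinset]
        refine ⟨fun e => ?_, ?_⟩
        · rw [Nat.mem_divisors]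
          refine ⟨?_, by have := hG1 q hq e.1; omega⟩
          rw [← congrFun hq'.2 e.1]
          unfold GG
          exact ((dvd_fx q'.1 e).trans (Dvd.intro _ rfl)).trans (Dvd.intro _ rfl)
        · rw [Nat.mem_divisors]
          refine ⟨?_, by have := hG1 q hq a.1; omega⟩
          rw [← congrFun hq'.2 a.1]
          unfold GG
          rw [if_pos rfl]
          exact (Dvd.intro _ rfl : q'.2 ∣ q'.2 * _).trans (Dvd.intro_left _ rfl)
      refine h2.trans ?_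
      rw [Finset.card_product, Fintype.card_piFinset, pow_succ]
      have h3 : ∏ e : Fin k × Fin k, EH H = EH H ^ (k * k) := by
        rw [Finset.prod_const, Finset.card_univ, Fintype.card_prod, Fintype.card_fin]
      have h4 : ∀ i, (GG a q i).divisors.card ≤ EH H := fun i => by
        unfold EH
        exact Finset.le_sup (f := fun M : ℕ => M.divisors.card) (Finset.mem_Icc.2
          ⟨hG1 q hq i, Nat.le_floor (hG2 q hq i)⟩)
      rw [← h3]
      exact Nat.mul_le_mul (Finset.prod_le_prod' fun e _ => h4 e.1) (h4 a.1))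
  simp only [AA_ds]
  refine h1.trans (ENNReal.ofReal_le_ofReal ?_)
  push_cast
  have h3 : ∀ q ∈ SI s W N, ‖cI q‖ ^ 2 ≤
      (1 / W) * ((∏ e, ((q.1 e : ℕ) : ℝ)⁻¹) * (q.2 : ℝ)⁻¹) := by
    intro q hq
    obtain ⟨h4, ⟨h5, h6⟩, h7, h8⟩ := hmem q hq
    set p : ℕ := ∏ e, q.1 e with hp
    have hp1 : (1:ℝ) ≤ p := by exact_mod_cast hpp q hq
    have hq1 : (1:ℝ) ≤ q.2 := by exact_mod_cast h5
    have e1 : ∏ e, ((q.1 e : ℕ) : ℝ)⁻¹ = (p : ℝ)⁻¹ := by
      rw [hp, Finset.prod_inv_distrib]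
      push_cast
      rfl
    have e2 : ‖cI q‖ = (p : ℝ)⁻¹ * (q.2 : ℝ)⁻¹ := by
      unfold cI
      rw [norm_mul, norm_inv, norm_inv, Complex.norm_natCast, Complex.norm_natCast]
    rw [e1, e2]
    have h10 : (W : ℝ) ≤ p * q.2 := by
      have : (W : ℝ) < ((p * q.2 : ℕ) : ℝ) := by exact_mod_cast h8
      push_cast at this
      exact this.le
    set x : ℝ := (p : ℝ)⁻¹ * (q.2 : ℝ)⁻¹ with hx
    have hx0 : 0 < x := by positivity
    have hx1 : x * ((p : ℝ) * q.2) = 1 := by rw [hx]; field_simp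
    have hxW : x ≤ 1 / W := by
      rw [le_div_iff₀ hW0]
      calc x * W ≤ x * (p * q.2) := by gcongr
        _ = 1 := hx1
    calc x ^ 2 = x * x := by ring
      _ ≤ (1 / W) * x := by gcongr
  have h4 : ∑ q ∈ SI s W N, ‖cI q‖ ^ 2 ≤ (1 + Real.log N) ^ (k * k + 1) / W := by
    refine (Finset.sum_le_sum h3).trans ?_
    rw [← Finset.mul_sum]
    have hW1 : (0:ℝ) ≤ 1 / W := by positivity
    have eW : (1 + Real.log N) ^ (k * k + 1) / (W : ℝ) =
        (1 / (W : ℝ)) * (1 + Real.log N) ^ (k * k + 1) := by ring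
    rw [eW]
    refine mul_le_mul_of_nonneg_left ?_ hW1
    have h5 : ∑ q ∈ SI s W N, (∏ e, ((q.1 e : ℕ) : ℝ)⁻¹) * (q.2 : ℝ)⁻¹ ≤
        ∑ q ∈ TT s W ×ˢ Finset.Icc 1 N, (∏ e, ((q.1 e : ℕ) : ℝ)⁻¹) * (q.2 : ℝ)⁻¹ := by
      unfold SI
      refine Finset.sum_le_sum_of_subset_of_nonneg (Finset.filter_subset _ _) fun q _ _ => ?_
      exact mul_nonneg (Finset.prod_nonneg fun e _ => by positivity) (by positivity)
    refine h5.trans ?_
    rw [Finset.sum_product]
    have e6 : ∑ x ∈ TT s W, ∑ y ∈ Finset.Icc 1 N, (∏ e, ((x e : ℕ) : ℝ)⁻¹) * (y : ℝ)⁻¹ =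
        (∑ x ∈ TT s W, ∏ e, ((x e : ℕ) : ℝ)⁻¹) * ∑ y ∈ Finset.Icc 1 N, (y : ℝ)⁻¹ := by
      rw [Finset.sum_mul_sum]
    refine (le_of_eq e6).trans ?_
    rw [pow_succ]
    refine mul_le_mul (tt_sum s hW hWN) (sum_inv_le N) (Finset.sum_nonneg fun _ _ => by positivity) (by positivity)
  have h2 := hE H hH
  have h5 := hL N hN1
  have h5' : (N : ℝ) ^ (ε / 2) ≤ H ^ (ε / 2) := Real.rpow_le_rpow (by linarith) hNH' (by positivity)
  have h6 : (1 + Real.log N) ^ (k * k + 1) ≤ C3 * H ^ (ε / 2) :=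
    h5.trans (mul_le_mul_of_nonneg_left h5' hC30.le)
  have hHe : H ^ (ε / 2) * H ^ (ε / 2) = H ^ ε := by
    rw [← Real.rpow_add hH0]
    congr 1
    ring
  have h7 : 0 ≤ ∑ q ∈ SI s W N, ‖cI q‖ ^ 2 :=
    Finset.sum_nonneg fun q _ => pow_nonneg (norm_nonneg (cI q)) 2
  calc (2 * C1 * H) ^ k * ((EH H : ℝ) ^ (k * k + 1) * ∑ q ∈ SI s W N, ‖cI q‖ ^ 2)
      ≤ (2 * C1 * H) ^ k * ((C2 * H ^ (ε / 2)) * (C3 * H ^ (ε / 2) / W)) := by
        refine mul_le_mul_of_nonneg_left ?_ (by positivity)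
        refine mul_le_mul h2 (h4.trans ?_) h7 (by positivity)
        gcongr
    _ = ((2 * C1) ^ k * C2 * C3) * H ^ k * (H ^ (ε / 2) * H ^ (ε / 2)) / W := by
        rw [mul_pow (2 * C1) H]
        ring
    _ = ((2 * C1) ^ k * C2 * C3) * H ^ k * H ^ ε / W := by rw [hHe]
    _ ≤ _ := by
        gcongr
        exact le_max_right _ _

theorem RR_ms3 (k : ℕ) (s : Finset (Fin k × Fin k)) : ∀ {ε : ℝ}, 0 < ε →
    ∃ C : ℝ, 1 ≤ C ∧ ∀ (σ : Fin k → Bool) (H : ℝ) (W N : ℕ), 1 ≤ W → W ≤ N → (N : ℝ) ^ 4 ≤ H →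
      ∫⁻ γ, ENNReal.ofReal (‖RR s W N (ds σ γ)‖ ^ 2) ∂(mP (Fin k) H) ≤
        ENNReal.ofReal (C * H ^ k * H ^ ε / W) := by
  obtain ⟨C1, hC1, hMV⟩ := Pool.Agent.TH928.GS.t_MV
  induction s using Finset.induction_on with
  | empty =>
    intro ε hε
    refine ⟨1, le_rfl, ?_⟩
    intro σ H W N hW hWN hNH
    have e : (fun γ : Fin k → ℝ => ENNReal.ofReal (‖RR ∅ W N (ds σ γ)‖ ^ 2)) = fun _ => 0 := by
      funext γ
      rw [RR_empty hW]
      simp
    rw [e, lintegral_zero]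
    exact bot_le
  | insert a s ha ih =>
    intro ε hε
    obtain ⟨C2, hC2, h2⟩ := ih (ε := ε / 2) (by positivity)
    obtain ⟨C3, hC3, h3⟩ := AA_ms3 hC1 hMV k hε
    obtain ⟨C4, hC4, h4⟩ := logp_le (δ := ε / 2) (by positivity) 2
    refine ⟨2 * C4 * C2 + 2 * C3, by nlinarith, ?_⟩
    intro σ H W N hW hWN hNH
    have hN1' : 1 ≤ N := hW.trans hWN
    have hN1 : (1:ℝ) ≤ N := by exact_mod_cast hN1'
    have hNH' : (N : ℝ) ≤ H := by
      refine le_trans ?_ hNH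
      have := pow_le_pow_right₀ hN1 (show 1 ≤ 4 by norm_num)
      simpa using this
    have hH : 1 ≤ H := hN1.trans hNH'
    have hH0 : 0 < H := by linarith
    have hW0 : (0:ℝ) < W := by exact_mod_cast hW
    set L : ℝ := 1 + Real.log N with hL
    have hL0 : 0 ≤ L := by
      have := Real.log_nonneg hN1
      linarith
    have hpt : ∀ γ : Fin k → ℝ, ENNReal.ofReal (‖RR (insert a s) W N (ds σ γ)‖ ^ 2) ≤
        ENNReal.ofReal (2 * L ^ 2) * ENNReal.ofReal (‖RR s W N (ds σ γ)‖ ^ 2) +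
          ENNReal.ofReal 2 * ENNReal.ofReal (‖AA s a W N (ds σ γ)‖ ^ 2) := by
      intro γ
      rw [← ENNReal.ofReal_mul (by positivity), ← ENNReal.ofReal_mul (by norm_num),
        ← ENNReal.ofReal_add (by positivity) (by positivity)]
      refine ENNReal.ofReal_le_ofReal ?_
      rw [RR_insert ha hWN]
      have h5 : ‖QQ N (ds σ γ) a * RR s W N (ds σ γ) + AA s a W N (ds σ γ)‖ ≤
          L * ‖RR s W N (ds σ γ)‖ + ‖AA s a W N (ds σ γ)‖ := by
        refine (norm_add_le _ _).trans ?_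
        rw [norm_mul]
        have := QQ_le hN1' (ds σ γ) a
        gcongr
      calc ‖QQ N (ds σ γ) a * RR s W N (ds σ γ) + AA s a W N (ds σ γ)‖ ^ 2 ≤
            (L * ‖RR s W N (ds σ γ)‖ + ‖AA s a W N (ds σ γ)‖) ^ 2 := by gcongr
        _ ≤ _ := by nlinarith [sq_nonneg (L * ‖RR s W N (ds σ γ)‖ - ‖AA s a W N (ds σ γ)‖)]
    have hm : Measurable fun γ : Fin k → ℝ => ENNReal.ofReal (‖RR s W N (ds σ γ)‖ ^ 2) :=
      mor (((RR_cont s W N).comp (ds_cont σ)).norm.pow 2)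
    refine (lintegral_mono hpt).trans ?_
    rw [lintegral_add_left (hm.const_mul _), lintegral_const_mul' _ _ ENNReal.ofReal_ne_top,
      lintegral_const_mul' _ _ ENNReal.ofReal_ne_top]
    have k1 := h2 σ H W N hW hWN hNH
    have k2 := h3 σ s a H W N hW hWN hNH
    calc _ ≤ ENNReal.ofReal (2 * L ^ 2) * ENNReal.ofReal (C2 * H ^ k * H ^ (ε / 2) / W) +
          ENNReal.ofReal 2 * ENNReal.ofReal (C3 * H ^ k * H ^ ε / W) := by gcongr
      _ = ENNReal.ofReal (2 * L ^ 2 * (C2 * H ^ k * H ^ (ε / 2) / W) +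
          2 * (C3 * H ^ k * H ^ ε / W)) := by
          rw [← ENNReal.ofReal_mul (by positivity), ← ENNReal.ofReal_mul (by norm_num),
            ← ENNReal.ofReal_add (by positivity) (by positivity)]
      _ ≤ _ := by
          refine ENNReal.ofReal_le_ofReal ?_
          have k3 : L ^ 2 ≤ C4 * H ^ (ε / 2) :=
            (h4 N hN1).trans (mul_le_mul_of_nonneg_left
              (Real.rpow_le_rpow (by linarith) hNH' (by positivity)) (by linarith))
          have hHe : H ^ (ε / 2) * H ^ (ε / 2) = H ^ ε := by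
            rw [← Real.rpow_add hH0]
            congr 1
            ring
          calc 2 * L ^ 2 * (C2 * H ^ k * H ^ (ε / 2) / W) + 2 * (C3 * H ^ k * H ^ ε / W)
              ≤ 2 * (C4 * H ^ (ε / 2)) * (C2 * H ^ k * H ^ (ε / 2) / W) +
                2 * (C3 * H ^ k * H ^ ε / W) := by gcongr
            _ = 2 * C4 * C2 * H ^ k * (H ^ (ε / 2) * H ^ (ε / 2)) / W +
                2 * (C3 * H ^ k * H ^ ε / W) := by ring
            _ = _ := by rw [hHe]; ring

/-- **RR3.** -/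
theorem RR3 : S_RR3 := by
  intro k ε hε
  obtain ⟨C, hC, h⟩ := RR_ms3 k (Ed k) hε
  refine ⟨C, hC, ?_⟩
  intro σ H N W hW hWN hNH
  have h1 := h σ H W N hW hWN hNH
  simp only [RR_eq]
  exact h1

end

end Pool.Agent.Y291.QF
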